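import Pool.Agent.H336R5.PS.All
set_option autoImplicit false

/-!
# The norm of the partial sum operator on the Hardy space `ℋ^1` of Dirichlet series

For all large `N` there is a Dirichlet polynomial `f` with `‖f‖_1 = 1` whose `N`-th partial sum
satisfies `‖S_N f‖_1 ≥ c log N / log log N`; so `‖S_N‖_1 ≥ c log N / log log N`.  Together with the
known upper bound `‖S_N‖_1 ≤ C log N / log log N` this is the exact order of growth of `‖S_N‖_1`.
-/

namespace Pool.Agent.Results.MP_cdccbc_an.PartialSumsHOne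

open Filter Topology MeasureTheory

/-- The value at `it` of the Dirichlet polynomial `∑_{n ≤ M} a_n n^{-s}`. -/
noncomputable def poly (a : ℕ → ℂ) (M : ℕ) (t : ℝ) : ℂ :=
  ∑ n ∈ Finset.Icc 1 M, a n * (n : ℂ) ^ (-((t : ℂ) * Complex.I))

/-- The norm of the Dirichlet polynomial `∑_{n ≤ M} a_n n^{-s}` in `ℋ^1` is `L`. -/
def IsNorm (a : ℕ → ℂ) (M : ℕ) (L : ℝ) : Prop :=
  Tendsto (fun T : ℝ => (1 / (2 * T)) * ∫ t in (-T)..T, ‖poly a M t‖) atTop (𝓝 L)

/-- The coefficients of the truncation `S_N f`. -/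
noncomputable def trunc (N : ℕ) (a : ℕ → ℂ) (n : ℕ) : ℂ := if n ≤ N then a n else 0

/-- **Lower bound of the order `log N / log log N` for the partial sum operator on `ℋ^1`.** -/
theorem result : ∃ c : ℝ, 0 < c ∧ ∀ᶠ N : ℕ in atTop, ∃ (M : ℕ) (a : ℕ → ℂ) (L : ℝ),
    IsNorm a M 1 ∧ IsNorm (trunc N a) M L ∧
      c * (Real.log N / Real.log (Real.log N)) ≤ L :=
  Pool.Agent.H336R5.PS.final

end Pool.Agent.Results.MP_cdccbc_an.PartialSumsHOne
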